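import Mathlib

namespace Pool.Agent.Results.MP_16c542_al.Counter

open scoped TensorProduct

universe u

def IsLocVS (K E : Type u) [Field K] [AddCommGroup E] [Module K E] (r : E → E → Prop) : Prop :=
  (∀ x y, r x y → r y x) ∧
    ∀ S : Set E, ∃ U : Submodule K E, (U : Set E) = {x | ∀ y ∈ S, r x y}

def locTensor (K : Type u) {E : Type u} [Field K] [AddCommGroup E] [Module K E]
    (r : E → E → Prop) (V W : Submodule K E) : Submodule K (V ⊗[K] W) :=
  Submodule.span K {t | ∃ (v : V) (w : W), r v w ∧ t = v ⊗ₜ[K] w}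

def quotRel (K : Type u) {E : Type u} [Field K] [AddCommGroup E] [Module K E]
    (r : E → E → Prop) (V W : Submodule K E) (X Y : locTensor K r V W) : Prop :=
  ∃ (m n : ℕ) (v : Fin m → V) (w : Fin m → W) (v' : Fin n → V) (w' : Fin n → W),
    (X : V ⊗[K] W) = ∑ i, v i ⊗ₜ[K] w i ∧ (Y : V ⊗[K] W) = ∑ j, v' j ⊗ₜ[K] w' j ∧
    (∀ i, r (v i) (w i)) ∧ (∀ j, r (v' j) (w' j)) ∧
    ∀ i j, r (v i) (v' j) ∧ r (v i) (w' j) ∧ r (w i) (v' j) ∧ r (w i) (w' j)

def tab : Fin 24 → List (Fin 10) :=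
  ![[2], [3], [0, 2], [1, 3], [4], [5], [0, 4], [1, 5], [2, 4], [3, 5], [0, 2, 4], [1, 3, 5],
    [6], [7], [0, 6], [1, 7], [8], [9], [0, 8], [1, 9], [6, 8], [7, 9], [0, 6, 8], [1, 7, 9]]

def mate : Fin 24 → Fin 24 :=
  ![1, 0, 3, 2, 5, 4, 7, 6, 9, 8, 11, 10, 13, 12, 15, 14, 17, 16, 19, 18, 21, 20, 23, 22]

lemma mate_mate : ∀ k, mate (mate k) = k := by decide

lemma tab_inj : ∀ k l, (∀ i, i ∈ tab k ↔ i ∈ tab l) → k = l := by decide

lemma tab_big : ∀ k, ∃ i ∈ tab k, 2 ≤ i.1 := by decide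

variable (K : Type u) [Field K]

def ind (k : Fin 24) : Fin 10 → K := fun i => if i ∈ tab k then 1 else 0

variable {K}

def r0 (s t : Fin 10 → K) : Prop :=
  s = 0 ∨ t = 0 ∨ ∃ (k : Fin 24) (α β : K), s = α • ind K k ∧ t = β • ind K (mate k)

lemma r0_symm {s t : Fin 10 → K} (h : r0 s t) : r0 t s := by
  rcases h with h | h | ⟨k, α, β, hs, ht⟩
  · exact Or.inr (Or.inl h)
  · exact Or.inl h
  · exact Or.inr (Or.inr ⟨mate k, β, α, ht, by rwa [mate_mate]⟩)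

lemma ind_inj {k l : Fin 24} {α β : K} (h : α • ind K k = β • ind K l) (h0 : α • ind K k ≠ 0) :
    k = l := by
  have ha : α ≠ 0 := by rintro rfl; simp at h0
  have hb : β ≠ 0 := by rintro rfl; rw [h] at h0; simp at h0
  refine tab_inj k l fun i => ?_
  have := congrFun h i
  simp only [ind, Pi.smul_apply, smul_eq_mul, mul_ite, mul_one, mul_zero] at this
  by_cases h1 : i ∈ tab k <;> by_cases h2 : i ∈ tab l <;> simp_all

lemma r0_add {s t t' : Fin 10 → K} (h : r0 s t) (h' : r0 s t') : r0 s (t + t') := by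
  by_cases hs : s = 0
  · exact Or.inl hs
  rcases h with h | h | ⟨k, α, β, hs1, ht⟩
  · exact absurd h hs
  · rwa [h, zero_add]
  rcases h' with h' | h' | ⟨l, α', β', hs2, ht'⟩
  · exact absurd h' hs
  · rw [h', add_zero]; exact Or.inr (Or.inr ⟨k, α, β, hs1, ht⟩)
  obtain rfl : k = l := ind_inj (hs1.symm.trans hs2) (hs1 ▸ hs)
  exact Or.inr (Or.inr ⟨k, α, β + β', hs1, by rw [ht, ht', add_smul]⟩)

lemma r0_smul {s t : Fin 10 → K} (c : K) (h : r0 s t) : r0 s (c • t) := by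
  rcases h with h | h | ⟨k, α, β, hs1, ht⟩
  · exact Or.inl h
  · exact Or.inr (Or.inl (by rw [h, smul_zero]))
  · exact Or.inr (Or.inr ⟨k, α, c * β, hs1, by rw [ht, smul_smul]⟩)

abbrev E (K : Type u) := (Fin 10 → K) × K × K

def r (x y : E K) : Prop :=
  r0 x.1 y.1 ∧ (∀ i : Fin 10, 6 ≤ i.1 → y.2.1 * x.1 i = 0 ∧ x.2.1 * y.1 i = 0) ∧
    ∀ i : Fin 10, 2 ≤ i.1 → i.1 < 6 → y.2.2 * x.1 i = 0 ∧ x.2.2 * y.1 i = 0

lemma r_symm (x y : E K) (h : r x y) : r y x :=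
  ⟨r0_symm h.1, fun i hi => (h.2.1 i hi).symm, fun i hi hj => (h.2.2 i hi hj).symm⟩

def pol (y : E K) : Submodule K (E K) where
  carrier := {x | r x y}
  zero_mem' := ⟨Or.inl rfl, fun i _ => by simp, fun i _ _ => by simp⟩
  add_mem' := fun {a b} (ha : r a y) (hb : r b y) => by
    refine ⟨r0_symm (r0_add (r0_symm ha.1) (r0_symm hb.1)), fun i hi => ?_, fun i hi hj => ?_⟩
    · obtain ⟨h1, h2⟩ := ha.2.1 i hi
      obtain ⟨h3, h4⟩ := hb.2.1 i hi
      simp only [Prod.fst_add, Prod.snd_add, Pi.add_apply]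
      exact ⟨by linear_combination h1 + h3, by linear_combination h2 + h4⟩
    · obtain ⟨h1, h2⟩ := ha.2.2 i hi hj
      obtain ⟨h3, h4⟩ := hb.2.2 i hi hj
      simp only [Prod.fst_add, Prod.snd_add, Pi.add_apply]
      exact ⟨by linear_combination h1 + h3, by linear_combination h2 + h4⟩
  smul_mem' := fun c a (ha : r a y) => by
    refine ⟨r0_symm (r0_smul c (r0_symm ha.1)), fun i hi => ?_, fun i hi hj => ?_⟩
    · obtain ⟨h1, h2⟩ := ha.2.1 i hi
      simp only [Prod.smul_fst, Prod.smul_snd, Pi.smul_apply, smul_eq_mul]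
      exact ⟨by linear_combination c * h1, by linear_combination c * h2⟩
    · obtain ⟨h1, h2⟩ := ha.2.2 i hi hj
      simp only [Prod.smul_fst, Prod.smul_snd, Pi.smul_apply, smul_eq_mul]
      exact ⟨by linear_combination c * h1, by linear_combination c * h2⟩

lemma isLoc : IsLocVS K (E K) r :=
  ⟨r_symm, fun S => ⟨⨅ y ∈ S, pol y, by
    ext x
    simp only [SetLike.mem_coe, Submodule.mem_iInf, Set.mem_setOf_eq]
    rfl⟩⟩

abbrev T (K : Type u) [Field K] := (⊤ : Submodule K (E K))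

def e (i : Fin 10) : T K := ⟨(Pi.single i 1, 0, 0), trivial⟩
def x1 : T K := ⟨(0, 1, 0), trivial⟩
def x2 : T K := ⟨(0, 0, 1), trivial⟩

lemma key {M N : Type u} [AddCommGroup M] [Module K M] [AddCommGroup N] [Module K N]
    (a c c' : M) (b d d' : N) : a ⊗ₜ[K] b =
      ∑ j : Fin 6, ![a + c, -c, a + c', -c', -(a + c + c'), c + c'] j ⊗ₜ[K]
        ![b + d, d, b + d', d', b + d + d', d + d'] j := by
  simp only [Fin.sum_univ_six, Matrix.cons_val, TensorProduct.add_tmul, TensorProduct.tmul_add,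
    TensorProduct.neg_tmul]
  abel

def vv (c c' : Fin 10) : Fin 6 → T K :=
  ![e 0 + e c, -e c, e 0 + e c', -e c', -(e 0 + e c + e c'), e c + e c']
def ww (d d' : Fin 10) : Fin 6 → T K :=
  ![e 1 + e d, e d, e 1 + e d', e d', e 1 + e d + e d', e d + e d']

lemma mk_r {v w : E K} (k : Fin 24) (α : K) (hv : v = (α • ind K k, 0, 0))
    (hw : w = (ind K (mate k), 0, 0)) : r v w := by
  subst hv hw
  exact ⟨Or.inr (Or.inr ⟨k, α, 1, rfl, (one_smul _ _).symm⟩), fun i _ => by simp,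
    fun i _ _ => by simp⟩

lemma rel1 (j : Fin 6) : r (vv (K := K) 2 4 j).1 (ww 3 5 j).1 := by
  refine mk_r (![2, 0, 6, 4, 10, 8] j) (![1, -1, 1, -1, -1, 1] j) ?_ ?_ <;> fin_cases j <;>
    (refine Prod.ext (funext fun i => ?_) (by simp [vv, ww, e])
     fin_cases i <;> simp [vv, ww, e, ind, tab, mate])

lemma rel2 (j : Fin 6) : r (vv (K := K) 6 8 j).1 (ww 7 9 j).1 := by
  refine mk_r (![14, 12, 18, 16, 22, 20] j) (![1, -1, 1, -1, -1, 1] j) ?_ ?_ <;> fin_cases j <;>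
    (refine Prod.ext (funext fun i => ?_) (by simp [vv, ww, e])
     fin_cases i <;> simp [vv, ww, e, ind, tab, mate])

lemma r_x1 {y : E K} : r (x1 (K := K)) y ↔ ∀ i : Fin 10, 6 ≤ i.1 → y.1 i = 0 := by
  simp [r, x1, r0]

lemma r_x2 {y : E K} : r (x2 (K := K)) y ↔ ∀ i : Fin 10, 2 ≤ i.1 → i.1 < 6 → y.1 i = 0 := by
  simp [r, x2, r0]

lemma x1v (j : Fin 6) : r (x1 (K := K)).1 (vv 2 4 j).1 ∧ r (x1 (K := K)).1 (ww 3 5 j).1 := by
  rw [r_x1, r_x1]
  fin_cases j <;> constructor <;> intro i hi <;> fin_cases i <;> simp [vv, ww, e] at hi ⊢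

lemma x2v (j : Fin 6) : r (x2 (K := K)).1 (vv 6 8 j).1 ∧ r (x2 (K := K)).1 (ww 7 9 j).1 := by
  rw [r_x2, r_x2]
  fin_cases j <;> constructor <;> intro i hi hj <;> fin_cases i <;> simp [vv, ww, e] at hi hj ⊢

lemma x11 : r (x1 (K := K)).1 x1.1 := r_x1.2 fun i _ => rfl
lemma x22 : r (x2 (K := K)).1 x2.1 := r_x2.2 fun i _ _ => rfl

noncomputable def X1 : locTensor K r (T K) (T K) :=
  ⟨x1 ⊗ₜ x1, Submodule.subset_span ⟨_, _, x11, rfl⟩⟩
noncomputable def X2 : locTensor K r (T K) (T K) :=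
  ⟨x2 ⊗ₜ x2, Submodule.subset_span ⟨_, _, x22, rfl⟩⟩
noncomputable def Y : locTensor K r (T K) (T K) :=
  ⟨e 0 ⊗ₜ e 1, by
    rw [key (e 0) (e 2) (e 4) (e 1) (e 3) (e 5)]
    exact Submodule.sum_mem _ fun j _ => Submodule.subset_span ⟨_, _, rel1 j, rfl⟩⟩

lemma q1 : quotRel K r (T K) (T K) X1 Y :=
  ⟨1, 6, fun _ => x1, fun _ => x1, vv 2 4, ww 3 5, by simp [X1], key _ _ _ _ _ _,
    fun _ => x11, rel1, fun _ j => ⟨(x1v j).1, (x1v j).2, (x1v j).1, (x1v j).2⟩⟩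

lemma q2 : quotRel K r (T K) (T K) X2 Y :=
  ⟨1, 6, fun _ => x2, fun _ => x2, vv 6 8, ww 7 9, by simp [X2], key _ _ _ _ _ _,
    fun _ => x22, rel2, fun _ j => ⟨(x2v j).1, (x2v j).2, (x2v j).1, (x2v j).2⟩⟩

def con (φ : E K →ₗ[K] K) : T K ⊗[K] T K →ₗ[K] E K :=
  TensorProduct.lift (LinearMap.mk₂ K (fun v w => φ w.1 • v.1)
    (fun _ _ _ => by simp) (fun _ _ _ => by simp [smul_comm (φ _)])
    (fun _ _ _ => by simp [add_smul]) (fun _ _ _ => by simp [mul_smul]))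

lemma con_tmul (φ : E K →ₗ[K] K) (v w : T K) : con φ (v ⊗ₜ w) = φ w.1 • v.1 := by simp [con]

lemma nq : ¬ quotRel K r (T K) (T K) (X1 + X2) Y := by
  rintro ⟨m, n, v, w, v', w', hX, hY, -, hr, h⟩
  let p1 : E K →ₗ[K] K := (LinearMap.fst K K K).comp (LinearMap.snd K _ _)
  let p2 : E K →ₗ[K] K := (LinearMap.snd K K K).comp (LinearMap.snd K _ _)
  let pc : Fin 10 → E K →ₗ[K] K := fun i => (LinearMap.proj i).comp (LinearMap.fst K _ _)
  have hX1 := congrArg (con p1) hX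
  have hX2 := congrArg (con p2) hX
  have hY1 := congrArg (fun t => pc 0 (con (pc 1) t)) hY
  simp only [X1, X2, Y, Submodule.coe_add, map_add, map_sum, con_tmul] at hX1 hX2 hY1
  have e1 : (x1 (K := K)).1 = ∑ i, p1 (w i).1 • (v i).1 := by simpa [p1, x1, x2] using hX1
  have e2 : (x2 (K := K)).1 = ∑ i, p2 (w i).1 • (v i).1 := by simpa [p2, x1, x2] using hX2
  have van : ∀ y : E K, (∀ i, r (v i).1 y) → ∀ i : Fin 10, 2 ≤ i.1 → y.1 i = 0 := by
    intro y hy i hi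
    have m1 : (x1 (K := K)).1 ∈ pol y := by
      rw [e1]; exact Submodule.sum_mem _ fun k _ => Submodule.smul_mem _ _ (hy k)
    have m2 : (x2 (K := K)).1 ∈ pol y := by
      rw [e2]; exact Submodule.sum_mem _ fun k _ => Submodule.smul_mem _ _ (hy k)
    by_cases h6 : 6 ≤ i.1
    · exact r_x1.1 m1 i h6
    · exact r_x2.1 m2 i hi (by omega)
  have z : ∀ j, pc 0 (pc 1 (w' j).1 • (v' j).1) = 0 := by
    intro j
    simp only [pc, map_smul, LinearMap.comp_apply, LinearMap.fst_apply, LinearMap.proj_apply,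
      smul_eq_mul]
    rcases (hr j).1 with h0 | h0 | ⟨k, α, β, h1, -⟩
    · simp [h0]
    · simp [h0]
    · obtain ⟨i, hi, h2⟩ := tab_big k
      have := van _ (fun l => (h l j).1) i h2
      rw [h1] at this
      have ha : α = 0 := by simpa [ind, hi] using this
      simp [h1, ha]
  rw [Finset.sum_eq_zero fun j _ => z j] at hY1
  simp [pc, e] at hY1

theorem result (K : Type u) [Field K] :
    ∃ (E : Type u) (_ : AddCommGroup E) (_ : Module K E) (r : E → E → Prop),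
      IsLocVS K E r ∧ ∃ V W : Submodule K E, ¬ IsLocVS K (locTensor K r V W) (quotRel K r V W) := by
  refine ⟨E K, inferInstance, inferInstance, r, isLoc, T K, T K, fun ⟨_, h⟩ => ?_⟩
  obtain ⟨U, hU⟩ := h {Y}
  have h1 : X1 ∈ U := by rw [← SetLike.mem_coe, hU]; simpa using q1
  have h2 : X2 ∈ U := by rw [← SetLike.mem_coe, hU]; simpa using q2
  have h3 := U.add_mem h1 h2
  rw [← SetLike.mem_coe, hU] at h3
  exact nq (h3 Y rfl)

end Pool.Agent.Results.MP_16c542_al.Counter
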